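import Pool.Agent.P.MP_f8a98e_co.Main

namespace Pool.Agent.Results.MP_f8a98e_co.Complete

open Pool.Agent.P.MP_f8a98e_co

theorem result (n i : ℕ) :
    (1 ≤ n ∧ 1 ≤ i ∧ (i : ℤ) < ⌈(n : ℚ) / 2⌉ - 1 ∧
      ¬ ((Even i → (dd {i} n : ℚ) / dd {i + 1} n > (dd {i + 2} n : ℚ) / dd {i + 3} n) ∧
        (Odd i → (dd {i} n : ℚ) / dd {i + 1} n < (dd {i + 2} n : ℚ) / dd {i + 3} n))) ↔
      (n = 7 ∧ i = 2) := by
  symm
  constructor
  · rintro ⟨rfl, rfl⟩
    have hc : ⌈((7 : ℕ) : ℚ) / 2⌉ = 4 := by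
      rw [Int.ceil_eq_iff]
      norm_num
    refine ⟨by norm_num, by norm_num, by rw [hc]; norm_num, fun h => ?_⟩
    have h1 := h.1 (by decide)
    norm_num [dd2, dd3, dd4, dd5] at h1
  rintro ⟨-, hi, hc, hneg⟩
  by_contra h7
  apply hneg
  have hn : 2 * i + 3 ≤ n := by
    have h1 : ((i + 1 : ℤ) : ℚ) < (n : ℚ) / 2 := Int.lt_ceil.1 (by omega)
    have h2 : ((2 * i + 2 : ℕ) : ℚ) < n := by
      push_cast at h1 ⊢
      linarith
    exact Nat.cast_lt.1 h2
  have pos : ∀ k, 2 ≤ k → k < n → (0 : ℚ) < dd {k} n := by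
    intro k h1 h2
    have := dd_pos (k - 2) (n - k - 1)
    rw [show k - 2 + 2 = k by omega, show k + (n - k - 1) + 1 = n by omega] at this
    exact Nat.cast_pos.2 this
  have p1 := pos (i + 1) (by omega) (by omega)
  have p2 := pos (i + 2) (by omega) (by omega)
  have p3 := pos (i + 3) (by omega) (by omega)
  rcases eq_or_lt_of_le hi with rfl | hi2
  · refine ⟨fun h => absurd h (by decide), fun _ => ?_⟩
    rw [dd_one, Nat.cast_zero, zero_div]
    exact div_pos p2 p3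
  have key := dl_pos i n hi2 hn h7
  unfold dl at key
  constructor
  · intro he
    rw [he.neg_one_pow, one_mul, sub_pos] at key
    rw [gt_iff_lt, div_lt_div_iff₀ p3 p1, mul_comm]
    exact_mod_cast key
  · intro ho
    rw [ho.neg_one_pow, neg_one_mul, neg_sub, sub_pos] at key
    rw [div_lt_div_iff₀ p1 p3, mul_comm (dd {i + 2} n : ℚ)]
    exact_mod_cast key

end Pool.Agent.Results.MP_f8a98e_co.Complete
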